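import Pool.Agent.Helper26.UM.Stmts

/-! Row ROS of project UM: the disjointness lemma of Rosenthal. -/

set_option autoImplicit false

namespace Pool.Agent.Helper73.UM

open Cardinal Set Pool.Agent.Helper63.INV Pool.Agent.Helper26.UM

universe u

theorem st_ROS : ST_ROS.{u} := by
  intro X _ A m ε hε hA hm hadd
  by_contra hno
  push Not at hno
  have hmono : ∀ x (B C : Set X), B ⊆ C → m x B ≤ m x C := by
    intro x B C hBC
    have h1 := hadd x B (C \ B) disjoint_sdiff_self_right
    rw [union_diff_cancel hBC] at h1
    have h2 := (hm x (C \ B)).1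
    linarith
  have hcard : #(X × X) = #X := by
    rw [← Cardinal.mul_def]
    exact Cardinal.mul_eq_self (Cardinal.aleph0_le_mk X)
  obtain ⟨q⟩ := Cardinal.eq.1 hcard
  have key : ∀ n : ℕ, ∃ f : X → X, Function.Injective f ∧
      ∀ x, m (f x) (⋃ y, A (f y)) ≤ 1 - n * ε := by
    intro n
    induction n with
    | zero =>
      refine ⟨id, Function.injective_id, fun x => ?_⟩
      have := (hm (id x) (⋃ y, A (id y))).2
      simpa using this
    | succ n ih =>
      obtain ⟨f, hf, hb⟩ := ih
      have hinj : ∀ p : X, Function.Injective (fun y => f (q (p, y))) := by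
        intro p y y' h
        have h1 := q.injective (hf h)
        exact (Prod.mk.injEq _ _ _ _ ▸ h1).2
      have hex : ∀ p : X, ∃ y : X,
          ε < m (f (q (p, y))) (⋃ z ∈ {z : X | z ≠ y}, A (f (q (p, z)))) := fun p =>
        hno (fun y => f (q (p, y))) (hinj p)
      choose y hy using hex
      refine ⟨fun p => f (q (p, y p)), ?_, fun p => ?_⟩
      · intro p p' h
        have h1 := q.injective (hf h)
        exact (Prod.mk.injEq _ _ _ _ ▸ h1).1
      · have hd : Disjoint (⋃ p', A (f (q (p', y p'))))
            (⋃ z ∈ {z : X | z ≠ y p}, A (f (q (p, z)))) := by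
          rw [Set.disjoint_iUnion_left]
          intro p'
          rw [Set.disjoint_iUnion₂_right]
          intro z hz
          apply hA
          intro h
          have h1 := q.injective (hf h)
          have h2 : p' = p := (Prod.mk.injEq _ _ _ _ ▸ h1).1
          have h3 : y p' = z := (Prod.mk.injEq _ _ _ _ ▸ h1).2
          rw [h2] at h3
          exact hz h3.symm
        have h1 := hadd (f (q (p, y p))) _ _ hd
        have h2 : (⋃ p', A (f (q (p', y p')))) ∪ (⋃ z ∈ {z : X | z ≠ y p}, A (f (q (p, z)))) ⊆
            ⋃ z, A (f z) := by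
          apply union_subset
          · exact iUnion_subset fun p' => subset_iUnion (fun z => A (f z)) (q (p', y p'))
          · exact iUnion₂_subset fun z _ => subset_iUnion (fun z => A (f z)) (q (p, z))
        have h3 := hmono (f (q (p, y p))) _ _ h2
        have h4 := hb (q (p, y p))
        have h5 := hy p
        push_cast
        linarith
  obtain ⟨n, hn⟩ := exists_nat_gt (1 / ε)
  obtain ⟨f, -, hb⟩ := key n
  obtain ⟨x⟩ : Nonempty X := inferInstance
  have h1 := hb x
  have h2 := (hm (f x) (⋃ y, A (f y))).1
  have h3 : 1 < n * ε := by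
    rw [div_lt_iff₀ hε] at hn
    exact hn
  linarith

end Pool.Agent.Helper73.UM
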